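import Mathlib
import Pool.Agent.H.MP_a8759f_co.B
set_option autoImplicit false

namespace Pool.Agent.Results.MP_a8759f_co.Yes
open Finset Pool.Agent.H.MP_16c276_co Pool.Agent.H.MP_a8759f_co

/-- a finite abstract simplicial complex on the vertex set `Fin n` (not all vertices need be used) -/
def IsComplex {n : ℕ} (K : Finset (Finset (Fin n))) : Prop := ∀ σ ∈ K, ∀ τ, τ ⊆ σ → τ ∈ K

/-- geometric realization, in barycentric coordinates -/
def real {n : ℕ} (K : Finset (Finset (Fin n))) : Set (Fin n → ℝ) :=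
  {x | (∀ i, 0 ≤ x i) ∧ ∑ i, x i = 1 ∧ ∃ σ ∈ K, ∀ i, i ∉ σ → x i = 0}

def IsFacet {n : ℕ} (K : Finset (Finset (Fin n))) (F : Finset (Fin n)) : Prop :=
  F ∈ K ∧ ∀ G ∈ K, F ⊆ G → G = F

/-- `K` is pure and its facets can be listed so that every face of the intersection of `F j` with
the earlier facets lies in a face of that intersection with one vertex fewer than `F j`. -/
def Shellable {n : ℕ} (K : Finset (Finset (Fin n))) : Prop :=
  (∀ F G, IsFacet K F → IsFacet K G → F.card = G.card) ∧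
  ∃ (s : ℕ) (F : Fin s → Finset (Fin n)), Function.Injective F ∧ (∀ G, IsFacet K G ↔ ∃ j, F j = G) ∧
    ∀ j σ, σ ⊆ F j → (∃ i < j, σ ⊆ F i) →
      ∃ ρ, σ ⊆ ρ ∧ ρ ⊆ F j ∧ (∃ k < j, ρ ⊆ F k) ∧ ρ.card + 1 = (F j).card

theorem facet {n : ℕ} {K : Finset (Finset (Fin n))} {σ : Finset (Fin n)} (h : σ ∈ K) :
    ∃ F, σ ⊆ F ∧ IsFacet K F := by
  obtain ⟨F, a, b⟩ := exists_max_image (K.filter (σ ⊆ ·)) card ⟨σ, mem_filter.2 ⟨h, Subset.rfl⟩⟩
  obtain ⟨a1, a2⟩ := mem_filter.1 a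
  exact ⟨F, a2, a1, fun G hG c => (eq_of_subset_of_card_le c (b G (mem_filter.2 ⟨hG, a2.trans c⟩))).symm⟩

theorem nonsh {n : ℕ} (J : Jn n) (d : ℕ) (τ : Finset (Fin n)) (hτ : J.C τ)
    (h1 : ∀ o, J.O o → o.card = d + 4) (h2 : ∀ c, J.C c → c.card = d) (K : Finset (Finset (Fin n)))
    (hK : ∀ ρ, ρ ∈ K ↔ ∃ G, J.Φ R0 G ∧ ρ ⊆ G) : ¬ Shellable K := by
  classical
  rintro ⟨-, s, F, -, f1, f2⟩
  have dj : ∀ c, J.C c → ∀ A : Finset (Fin 14), Disjoint c (A.map J.ι) := fun c hc A =>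
    disjoint_right.2 fun x hx => by
      obtain ⟨i, -, rfl⟩ := mem_map.1 hx
      exact J.hC c hc i
  have cd : ∀ G, J.Φ R0 G → G.card = d + 4 := by
    rintro _ (ho | ⟨c, hc, m, hm, rfl⟩)
    · exact h1 _ ho
    · rw [card_union_of_disjoint (dj c hc _), card_map, h2 c hc, (c3 m hm).1]
  have fc : ∀ G, IsFacet K G ↔ J.Φ R0 G := fun G => ⟨fun h => by
    obtain ⟨G', a, b⟩ := (hK G).1 h.1
    exact h.2 G' ((hK _).2 ⟨_, a, Subset.rfl⟩) b ▸ a, fun h => ⟨(hK _).2 ⟨_, h, Subset.rfl⟩,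
      fun G' a b => by
        obtain ⟨G'', c, e⟩ := (hK G').1 a
        exact (eq_of_subset_of_card_le b ((card_le_card e).trans (by rw [cd _ c, cd _ h]))).symm⟩⟩
  let F' : ℕ → Finset (Fin n) := fun i => if h : i < s then F ⟨i, h⟩ else ∅
  have e' : ∀ i : Fin s, F' i = F i := fun i => dif_pos i.2
  have sh : Sh (· < s) F' := fun j hj i l hi => by
    obtain ⟨ρ, a, b, ⟨k, c, e⟩, f⟩ := f2 ⟨j, hj⟩ (F ⟨i, hi⟩ ∩ F ⟨j, hj⟩) inter_subset_right
      ⟨⟨i, hi⟩, l, inter_subset_left⟩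
    obtain ⟨v, v1, v2⟩ := exists_eq_insert_iff.2 ⟨b, f⟩
    refine ⟨k, c, k.2, v, ?_⟩
    rw [e' ⟨j, hj⟩, e' ⟨i, hi⟩, e' k]
    rw [← v2] at a ⊢
    rw [erase_insert v1]
    exact ⟨mem_insert_self _ _, a, e⟩
  let π : Fin n → Fin 14 := fun x => if h : ∃ i, J.ι i = x then h.choose else 13
  have p1 : ∀ i, π (J.ι i) = i := fun i =>
    (dif_pos ⟨i, rfl⟩).trans (J.ι.injective (Exists.choose_spec (⟨i, rfl⟩ : ∃ j, J.ι j = J.ι i)))
  have p2 : ∀ x, π x = 13 ∨ J.ι (π x) = x := fun x => by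
    by_cases h : ∃ i, J.ι i = x
    · obtain ⟨i, rfl⟩ := h
      exact Or.inr (by rw [p1])
    · exact Or.inl (dif_neg h)
  have md : ∀ i, i < s ∧ τ ⊆ F' i → (F' i).card = d + 4 ∧ ¬ N0.map J.ι ⊆ F' i ∧ ∃ m ∈ 8207 :: R0,
      ∀ x ∈ F' i \ τ, π x ∈ dec 14 m := fun i hi => by
    have a := (fc _).1 ((f1 _).2 ⟨⟨i, hi.1⟩, rfl⟩)
    rw [← e' ⟨i, hi.1⟩] at a
    refine ⟨cd _ a, ?_⟩
    rcases a with ho | ⟨c, hc, m, hm, e⟩
    · refine ⟨fun h => J.hO _ ho 4 le_rfl (h (mem_map_of_mem _ (by decide))), _, List.mem_cons_self,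
        fun x hx => ?_⟩
      have : ∀ i : Fin 14, i = 13 ∨ ¬ 4 ≤ i.1 → i ∈ dec 14 8207 := by decide
      exact this _ ((p2 x).imp_right fun h l => J.hO _ ho _ l (by rw [h]; exact (mem_sdiff.1 hx).1))
    · obtain rfl : τ = c := eq_of_subset_of_card_le ((dj τ hτ _).left_le_of_le_sup_right
        (e ▸ hi.2 : τ ⊆ c ∪ _)) (by rw [h2 c hc, h2 τ hτ])
      refine ⟨fun h => (c3 m hm).2 fun j hj => (mem_map' _).1 ((mem_union.1
        (e ▸ h (mem_map_of_mem _ hj))).resolve_left (J.hC τ hc j)), m, List.mem_cons_of_mem _ hm,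
        fun x hx => ?_⟩
      obtain ⟨j, hj, rfl⟩ := mem_map.1 ((mem_union.1 (e ▸ (mem_sdiff.1 hx).1)).resolve_left
        (mem_sdiff.1 hx).2)
      rwa [p1]
  have m1 : ∀ {G : Finset (Fin n)} {m x}, (∀ x ∈ G \ τ, π x ∈ dec 14 m) →
      x ∈ G \ (τ ∪ N0.map J.ι) → π x ∈ dec 14 m \ N0 := fun {G m x} h hx => by
    simp only [mem_sdiff, mem_union, not_or] at hx
    refine mem_sdiff.2 ⟨h x (mem_sdiff.2 ⟨hx.1, hx.2.1⟩), fun a => ?_⟩
    rcases p2 x with e | e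
    · exact absurd (e ▸ a) (by decide)
    · exact hx.2.2 (e ▸ mem_map_of_mem _ a)
  have m2 : ∀ {G : Finset (Fin n)} {m x}, (∀ x ∈ G \ τ, π x ∈ dec 14 m) →
      x ∈ G ∩ N0.map J.ι → π x ∈ dec 14 m ∩ N0 := fun {G m x} h hx => by
    obtain ⟨j, hj, rfl⟩ := mem_map.1 (mem_inter.1 hx).2
    exact mem_inter.2 ⟨h _ (mem_sdiff.2 ⟨(mem_inter.1 hx).1, J.hC τ hτ j⟩), (p1 j).symm ▸ hj⟩
  obtain ⟨t, ht⟩ := flat (sh.link τ) (τ ∪ N0.map J.ι) (N0.map J.ι) (fun x y => g0 (π x) (π y))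
    (fun u x => s0 (π u) (π x)) (by rw [card_map]; rfl) subset_union_right (fun i hi => by
      have a := card_sdiff_add_card_inter (F' i \ τ) (N0.map J.ι)
      have b := card_le_card (inter_subset_inter (sdiff_subset (s := F' i) (t := τ))
        (Subset.refl (N0.map J.ι)))
      have c := card_sdiff_add_card_eq_card hi.2
      rw [(md i hi).1, h2 τ hτ] at c
      rw [sdiff_sdiff_left, sup_eq_union] at a
      omega) (fun i hi => (md i hi).2.1) (fun i hi x hx y hy z hz => by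
      obtain ⟨m, a, b⟩ := (md i hi).2.2
      exact (c2 m a).1 _ (m1 b hx) _ (m1 b hy) _ (m1 b hz)) (fun i hi u hu x hx y hy => by
      obtain ⟨m, a, b⟩ := (md i hi).2.2
      exact ((c2 m a).2 _ (m2 b hu) _ (m1 b hx)).1 _ (m1 b hy)) (fun i hi u hu v hv x hx => by
      obtain ⟨m, a, b⟩ := (md i hi).2.2
      exact ((c2 m a).2 _ (m2 b hu) _ (m1 b hx)).2 _ (m2 b hv)) s
  refine c4 (fun i => t (J.ι i)) fun m hm x hx y hy => ?_
  obtain ⟨j, hj⟩ := (f1 _).1 ((fc _).2 (Or.inr ⟨τ, hτ, m, hm, rfl⟩))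
  have k : ∀ x ∈ dec 14 m \ N0, J.ι x ∈ F' j \ (τ ∪ N0.map J.ι) := fun x hx => by
    rw [e', hj]
    simpa [J.hC τ hτ x] using hx
  simpa only [p1] using ht j j.2 ⟨j.2, by rw [e', hj]; exact subset_union_left⟩ _ (k x hx) _ (k y hy)

theorem result (X : Type) [TopologicalSpace X] (n : ℕ) (K : Finset (Finset (Fin n)))
    (hK : IsComplex K) (hd : ∃ σ ∈ K, 4 ≤ σ.card) (hX : Nonempty (X ≃ₜ real K)) :
    ∃ (n' : ℕ) (K' : Finset (Finset (Fin n'))), IsComplex K' ∧ Nonempty (X ≃ₜ real K') ∧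
      ¬ Shellable K' := by
  classical
  by_cases hs : Shellable K
  swap
  · exact ⟨n, K, hK, hX, hs⟩
  obtain ⟨σ', a1, a2⟩ := hd
  obtain ⟨σ, a3, a4⟩ := exists_subset_card_eq a2
  obtain ⟨F0, b1, b2⟩ := facet a1
  replace b1 := a3.trans b1
  let e : Fin n ↪ Fin (n + 10) := Fin.castAddEmb 10
  let ι : Fin (4 + 10) → Fin (n + 10) :=
    Fin.addCases (fun i => e (σ.orderEmbOfFin a4 i)) fun j => Fin.natAdd n j
  have i1 : ∀ i : Fin (4 + 10), (i.1 < 4 ∧ ∃ x ∈ σ, e x = ι i) ∨ (4 ≤ i.1 ∧ ∀ x, e x ≠ ι i) := by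
    refine Fin.addCases (fun i => Or.inl ⟨i.2, _, σ.orderEmbOfFin_mem a4 i, by simp [ι]⟩)
      fun j => Or.inr ⟨by simp, fun x h => ?_⟩
    have := x.2
    simp [ι, e, Fin.ext_iff] at h
    omega
  have i2 : Function.Injective ι := by
    refine Fin.addCases (fun i => Fin.addCases (fun j h => ?_) fun j h => ?_)
      fun i => Fin.addCases (fun j h => ?_) fun j h => ?_
    · rw [show i = j by simpa [ι] using h]
    · exact absurd h (by simpa [ι] using ((i1 (Fin.natAdd 4 j)).resolve_left (by simp)).2 _)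
    · exact absurd h.symm (by simpa [ι] using ((i1 (Fin.natAdd 4 i)).resolve_left (by simp)).2 _)
    · rw [show i = j by simpa [ι] using h]
  have i3 : (dec 14 15).map ⟨ι, i2⟩ = σ.map e := by
    refine eq_of_subset_of_card_le (fun x hx => ?_) (by rw [card_map, card_map, a4]; decide)
    obtain ⟨i, hi, rfl⟩ := mem_map.1 hx
    have : ∀ i : Fin 14, i ∈ dec 14 15 → ¬ 4 ≤ i.1 := by decide
    exact mem_map.2 ((i1 i).resolve_right fun h => this i hi h.1).2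
  let J : Jn (n + 10) := ⟨fun o => ∃ F, IsFacet K F ∧ ¬ σ ⊆ F ∧ o = F.map e,
    fun c => ∃ F, IsFacet K F ∧ σ ⊆ F ∧ c = (F \ σ).map e, ⟨ι, i2⟩, by
      rintro _ ⟨F, -, -, rfl⟩ i h
      obtain ⟨x, hx, e1⟩ := mem_map.1 h
      rcases i1 i with ⟨-, y, hy, e2⟩ | ⟨-, e2⟩
      · exact (mem_sdiff.1 hx).2 (e.injective (e2.trans e1.symm) ▸ hy)
      · exact e2 x e1, by
      rintro _ ⟨F, -, -, rfl⟩ i hi h
      obtain ⟨x, -, e1⟩ := mem_map.1 h
      exact ((i1 i).resolve_left fun h => h.1.not_ge hi).2 x e1, by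
      rintro _ ⟨F, -, c, rfl⟩ h
      refine c (map_subset_map.1 (i3 ▸ fun x hx => ?_ : σ.map e ⊆ F.map e))
      obtain ⟨i, hi, rfl⟩ := mem_map.1 hx
      exact h i ((by decide : ∀ i : Fin 14, i ∈ dec 14 15 → i.1 < 4) i hi)⟩
  have c0 := card_sdiff_add_card_eq_card b1
  refine ⟨n + 10, univ.filter fun ρ => ∃ G, J.Φ R0 G ∧ ρ ⊆ G, fun ρ h τ l => ?_, ?_,
    nonsh J (F0 \ σ).card _ ⟨F0, b2, b1, rfl⟩ ?_ ?_ _ (by simp)⟩
  · obtain ⟨G, g1, g2⟩ := (mem_filter.1 h).2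
    exact mem_filter.2 ⟨mem_univ _, G, g1, l.trans g2⟩
  · obtain ⟨e1⟩ := hX
    obtain ⟨e2⟩ := emb e (IsFacet K)
    obtain ⟨e3⟩ := chJ_ok J ch R0 c1
    refine ⟨e1.trans ((Homeomorph.setCongr ?_).trans (e2.symm.trans ((Homeomorph.setCongr ?_).trans
      (e3.symm.trans (Homeomorph.setCongr ?_)))))⟩
    · refine Set.ext fun x => and_congr_right fun _ => and_congr_right fun _ =>
        ⟨fun ⟨ρ, a, b⟩ => ?_, fun ⟨ρ, a, b⟩ => ⟨ρ, a.1, b⟩⟩
      obtain ⟨F, c, d⟩ := facet a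
      exact ⟨F, d, fun i hi => b i fun h => hi (c h)⟩
    · congr 1
      ext G
      have k : ∀ F, σ ⊆ F → F.map e = (F \ σ).map e ∪ (dec 14 15).map J.ι := fun F h => by
        rw [show (dec 14 15).map J.ι = σ.map e from i3, ← map_union, sdiff_union_of_subset h]
      constructor
      · rintro ⟨F, a, rfl⟩
        by_cases c : σ ⊆ F
        exacts [Or.inr ⟨_, ⟨F, a, c, rfl⟩, 15, by simp, k F c⟩, Or.inl ⟨F, a, c, rfl⟩]
      · rintro (⟨F, a, -, rfl⟩ | ⟨_, ⟨F, a, c, rfl⟩, m, hm, rfl⟩)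
        · exact ⟨F, a, rfl⟩
        · obtain rfl := List.mem_singleton.1 hm
          exact ⟨F, a, (k F c).symm⟩
    · exact Set.ext fun x => and_congr_right fun _ => and_congr_right fun _ =>
        ⟨fun ⟨G, a, b⟩ => ⟨G, mem_filter.2 ⟨mem_univ _, G, a, Subset.rfl⟩, b⟩, fun ⟨ρ, a, b⟩ => by
          obtain ⟨G, g1, g2⟩ := (mem_filter.1 a).2
          exact ⟨G, g1, fun i hi => b i fun h => hi (g2 h)⟩⟩
  · rintro _ ⟨F, a, -, rfl⟩
    rw [card_map, hs.1 F F0 a b2]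
    omega
  · rintro _ ⟨F, a, c, rfl⟩
    have := card_sdiff_add_card_eq_card c
    have := hs.1 F F0 a b2
    rw [card_map]
    omega

end Pool.Agent.Results.MP_a8759f_co.Yes
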